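import Pool.Agent.ASE.Stmts6
import Pool.Agent.Helper97_ASE.CZB

/-!
# Squad ASE, row ETC: congruences for the central characters at the labels `et`
-/

open scoped BigOperators

noncomputable section

namespace Pool.Agent.PP.SE.H91

open Pool.Agent.Helper51_AWC Pool.Agent.Helper79_WRA Pool.Agent.PP Pool.Agent.PP.KF
open Pool.Agent.PP.K9 Pool.Agent.PP.K9.H97 Pool.Agent.PP.H75 Pool.Agent.PP.T3 Pool.Agent.PP.SO
open Pool.Agent.PP.SD

attribute [local instance] Ideal.Quotient.field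

section nu

variable {V₀ G : Type} [CommGroup V₀] [Group G] [Finite G] {M : Ideal (integralClosure ℤ ℂ)}
  [M.IsMaximal] (B : Bk (FF M) V₀ G) {W : Subgroup V₀}

omit [M.IsMaximal] in
theorem ch_one_ne {ψ : G → ℂ} (hψ : ψ ∈ Ch B W) : ψ 1 ≠ 0 :=
  irr_one_ne (χ := fun t : B.C W => ψ t) hψ.2.1

omit [M.IsMaximal] in
theorem nu_one {ψ : G → ℂ} (hψ : ψ ∈ Ch B W) : nu B ψ 1 = 1 := by
  unfold nu
  rw [map_one, div_self (ch_one_ne B hψ)]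

omit [M.IsMaximal] in
theorem nu_mul {ψ : G → ℂ} (hψ : ψ ∈ Ch B W) {w : V₀} (hw : w ∈ W) (w' : V₀) :
    nu B ψ (w * w') = nu B ψ w * nu B ψ w' := by
  have h := SE.H97.central_i B W hψ.1 hψ.2.1 hw (B.i w')
  unfold nu at h ⊢
  rw [map_mul, h]
  ring

omit [M.IsMaximal] in
theorem nu_pow {ψ : G → ℂ} (hψ : ψ ∈ Ch B W) {w : V₀} (hw : w ∈ W) (n : ℕ) :
    nu B ψ (w ^ n) = nu B ψ w ^ n := by
  induction n with
  | zero => rw [pow_zero, pow_zero, nu_one B hψ]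
  | succ n ih => rw [pow_succ', nu_mul B hψ hw, ih, pow_succ']

theorem nu_int {ℓ : ℕ} (hℓ : ℓ.Prime) {ψ : G → ℂ} (hψ : ψ ∈ Ch B W) {w : V₀} (hw : w ∈ W)
    (h : w ^ ℓ = 1) : IsIntegral ℤ (nu B ψ w) := by
  refine IsIntegral.of_pow hℓ.pos ?_
  rw [← nu_pow B hψ hw, h, nu_one B hψ]
  exact isIntegral_one

/-- the sum of the values of `nu` over the subgroup -/
theorem nu_sum [Finite V₀] {ψ : G → ℂ} (hψ : ψ ∈ Ch B W) :
    ∑ᶠ κ : W, nu B ψ κ = 0 ∨ ∑ᶠ κ : W, nu B ψ κ = Nat.card W := by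
  by_cases h : ∀ κ : W, nu B ψ κ = 1
  · right
    have := Fintype.ofFinite W
    rw [finsum_eq_sum_of_fintype, Finset.sum_congr rfl (fun κ _ => h κ), Finset.sum_const,
      Finset.card_univ, nsmul_eq_mul, mul_one, Nat.card_eq_fintype_card]
  · left
    obtain ⟨κ₀, hκ₀⟩ := not_forall.1 h
    have e1 : ∑ᶠ κ : W, nu B ψ κ = nu B ψ κ₀ * ∑ᶠ κ : W, nu B ψ κ := by
      have := Fintype.ofFinite W
      rw [finsum_eq_sum_of_fintype, Finset.mul_sum]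
      refine (Fintype.sum_equiv (Equiv.mulLeft κ₀) _ _ fun κ => ?_).symm
      exact (nu_mul B hψ κ₀.2 (κ : V₀)).symm
    have e2 : (1 - nu B ψ κ₀) * ∑ᶠ κ : W, nu B ψ κ = 0 := by
      rw [sub_mul, one_mul, ← e1, sub_self]
    rcases mul_eq_zero.1 e2 with h1 | h1
    · exact absurd (sub_eq_zero.1 h1).symm hκ₀
    · exact h1

end nu

theorem etc (etm : EtmStmt) (hte : HteStmt) : EtcStmt := by
  intro ℓ hℓ M _ hM V₀ G _ _ _ _ E₀ hF B hB D hD a ha χ hχ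
  have hl0 : (ℓ : ℂ) ≠ 0 := Nat.cast_ne_zero.2 hℓ.out.ne_zero
  obtain ⟨-, e2⟩ := etm ℓ M hM V₀ G B D a ha (hD.e1 a ha)
  obtain ⟨m, hm⟩ := e2 χ hχ.1
  have h1 := (hte ℓ M hM V₀ G E₀ hF.ex hF.cd B hB χ hχ).1
  have hfin := SE.H97.ch_fin B a
  have hχ1 : χ 1 ≠ 0 := irr_one_ne hχ.1
  have hC0 : (Nat.card (B.C a) : ℂ) ≠ 0 := Nat.cast_ne_zero.2 Nat.card_pos.ne'
  -- the coefficients
  obtain ⟨c, hc⟩ : ∃ c : (G → ℂ) → ℂ, ∀ ψ, c ψ = ((Nat.card G : ℂ) / ((ℓ : ℂ) ^ 2 * χ 1)) *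
      ((ℓ : ℂ) ^ 2 * ψ 1 / Nat.card (B.C a)) * m ψ * (cv (D.et a) ψ / ℓ) := ⟨_, fun _ => rfl⟩
  have hcR : ∀ ψ ∈ Ch B a, c ψ ∈ RM M := by
    intro ψ hψ
    rw [hc]
    refine (RM M).mul_mem ((RM M).mul_mem ((RM M).mul_mem h1 (hD.h1 a ha ψ hψ).1) ?_)
      (hD.e4 a ha ψ hψ)
    exact natCast_mem (RM M) _
  have hsum : ∀ κ ∈ a, cv (etl B D a κ ⊥) χ = ℓ * ∑ ψ ∈ hfin.toFinset, c ψ * nu B ψ κ := by
    intro κ hκ
    rw [hm κ hκ, finsum_mem_eq_finite_toFinset_sum _ hfin, Finset.mul_sum, Finset.mul_sum]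
    refine Finset.sum_congr rfl fun ψ _ => ?_
    rw [hc]
    field_simp
  constructor
  · intro κ hκ
    rw [hsum κ hκ, mul_div_cancel_left₀ _ hl0]
    refine (RM M).sum_mem fun ψ hψ => ?_
    have hψ' := hfin.mem_toFinset.1 hψ
    exact (RM M).mul_mem (hcR ψ hψ') (RM_of_int (nu_int B hℓ.out hψ' hκ (hF.ex κ)))
  · intro hcard
    have e3 : ∑ᶠ κ ∈ a, cv (etl B D a κ ⊥) χ =
        ℓ * ∑ ψ ∈ hfin.toFinset, c ψ * ∑ᶠ κ : a, nu B ψ κ := by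
      have := Fintype.ofFinite a
      have e4 : ∑ᶠ κ : a, SO.cv (etl B D a κ ⊥) χ = ∑ᶠ κ ∈ a, SO.cv (etl B D a κ ⊥) χ :=
        finsum_subtype_eq_finsum_cond (f := fun κ : V₀ => SO.cv (etl B D a κ ⊥) χ) (fun κ => κ ∈ a)
      rw [← e4, finsum_eq_sum_of_fintype,
        Finset.sum_congr rfl (fun (κ : a) _ => hsum (κ : V₀) κ.2),
        ← Finset.mul_sum, Finset.sum_comm]
      congr 1
      refine Finset.sum_congr rfl fun ψ _ => ?_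
      rw [finsum_eq_sum_of_fintype, Finset.mul_sum]
    rw [e3, pow_two, mul_div_mul_left _ _ hl0, Finset.sum_div]
    refine (RM M).sum_mem fun ψ hψ => ?_
    have hψ' := hfin.mem_toFinset.1 hψ
    rcases nu_sum B hψ' with h | h
    · rw [h, mul_zero, zero_div]
      exact (RM M).zero_mem
    · rw [h, hcard, mul_div_assoc, div_self hl0, mul_one]
      exact hcR ψ hψ'

end Pool.Agent.PP.SE.H91
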