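import Pool.Agent.ASE.Stmts6
import Pool.Agent.Helper45_ASO.HSM
import Pool.Agent.Helper25_K9.PRG
import Pool.Agent.Helper94_PP.LemQ
import Pool.Agent.Helper15_AT5.KBF

/-!
# Squad ASE, row HTE: the heights are zero
-/

open scoped BigOperators

noncomputable section

namespace Pool.Agent.PP.SE.H91

open Pool.Agent.Helper51_AWC Pool.Agent.Helper79_WRA Pool.Agent.PP Pool.Agent.PP.KF
open Pool.Agent.PP.K9 Pool.Agent.PP.K9.H97 Pool.Agent.PP.H75 Pool.Agent.PP.T3 Pool.Agent.PP.SO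
open Pool.Agent.PP.SD

attribute [local instance] Ideal.Quotient.field

/-! ## The local ring -/

section loc

variable {ℓ : ℕ} [hℓ : Fact ℓ.Prime] {M : Ideal (integralClosure ℤ ℂ)} [M.IsMaximal]

theorem rr_l (hM : (ℓ : integralClosure ℤ ℂ) ∈ M) : rr M (ℓ : ℂ) = 0 := by
  have := (dvd_of_rr (M := M) hℓ.out hM (n := (ℓ : ℤ))).2 dvd_rfl
  exact_mod_cast this

theorem rr_nat_ne (hM : (ℓ : integralClosure ℤ ℂ) ∈ M) {n : ℕ} (hn : ¬ ℓ ∣ n) :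
    rr M (n : ℂ) ≠ 0 := by
  intro h
  have h1 : rr M ((n : ℤ) : ℂ) = 0 := by exact_mod_cast h
  have h2 := (dvd_of_rr (M := M) hℓ.out hM (n := (n : ℤ))).1 h1
  exact hn (by exact_mod_cast h2)

/-- a rational number of the local ring is a unit or divisible by `ℓ` -/
theorem unit_or (hM : (ℓ : integralClosure ℤ ℂ) ∈ M) {q : ℚ} (h : (q : ℂ) ∈ RM M) :
    ((q : ℂ)⁻¹ ∈ RM M ∧ ¬ (ℓ : ℤ) ∣ q.num) ∨ (q : ℂ) / ℓ ∈ RM M := by
  have hden : ¬ ℓ ∣ q.den := SO.H45.rat_RM hM h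
  have hl0 : (ℓ : ℂ) ≠ 0 := Nat.cast_ne_zero.2 hℓ.out.ne_zero
  have h1 : ((q.num : ℤ) : ℂ) = (q : ℂ) * ((q.den : ℕ) : ℂ) := by
    have h2 : (q.num : ℚ) = q * q.den := (Rat.mul_den_eq_num q).symm
    exact_mod_cast congrArg (fun x : ℚ => (x : ℂ)) h2
  have hd := rr_nat_ne hM hden
  by_cases hr : rr M (q : ℂ) = 0
  · right
    have h3 : rr M ((q.num : ℤ) : ℂ) = 0 := by
      rw [h1, rr_mul h (rr_nat _).1, hr, zero_mul]
    obtain ⟨k, hk⟩ := (dvd_of_rr (M := M) hℓ.out hM).1 h3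
    obtain ⟨h4, h5⟩ := inv_RM (rr_nat (M := M) q.den).1 hd
    have h6 : (q : ℂ) / ℓ = (k : ℂ) * ((q.den : ℕ) : ℂ)⁻¹ := by
      rw [hk] at h1
      push_cast at h1
      field_simp
      exact h1.symm
    rw [h6]
    exact (RM M).mul_mem (rr_int k).1 h4
  · left
    refine ⟨(inv_RM h hr).1, ?_⟩
    intro hdv
    have h3 := (dvd_of_rr (M := M) hℓ.out hM (n := q.num)).2 hdv
    rw [h1, rr_mul h (rr_nat _).1] at h3
    rcases mul_eq_zero.1 h3 with h4 | h4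
    · exact hr h4
    · exact hd h4

end loc

/-! ## Characters and elements which are not regular -/

section chars

variable {ℓ : ℕ} [hℓ : Fact ℓ.Prime] {G : Type} [Group G] [Finite G]

/-- the inner product over the regular elements is symmetric if it is rational -/
theorem rip_star {χ ψ : G → ℂ} : starRingEnd ℂ (T5.rip ℓ χ ψ) = T5.rip ℓ ψ χ := by
  classical
  have := Fintype.ofFinite G
  unfold T5.rip
  rw [map_mul, map_inv₀, Complex.conj_natCast, finsum_eq_sum_of_fintype,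
    finsum_eq_sum_of_fintype, map_sum]
  congr 1
  refine Finset.sum_congr rfl fun s _ => ?_
  by_cases h : Reg ℓ s
  · rw [finsum_eq_if, if_pos h, finsum_eq_if, if_pos h, map_mul, Complex.conj_conj, mul_comm]
  · rw [finsum_eq_if, if_neg h, finsum_eq_if, if_neg h, map_zero]

/-- the norm over the regular elements is not an integer if the character does not vanish at some
element which is not regular -/
theorem rip_not_int {χ : G → ℂ} (hχ : χ ∈ Irr G) {g : G} (hg : ¬ Reg ℓ g) (hχg : χ g ≠ 0)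
    (n : ℤ) : T5.rip ℓ χ χ ≠ n := by
  classical
  have := Fintype.ofFinite G
  intro hn
  have hc : (0 : ℝ) < Fintype.card G := by exact_mod_cast Fintype.card_pos
  have hc' : (Fintype.card G : ℂ) ≠ 0 := by exact_mod_cast Fintype.card_ne_zero
  have h1 : (((Fintype.card G : ℝ)⁻¹ *
      ∑ k : G, if Reg ℓ k then Complex.normSq (χ k) else 0 : ℝ) : ℂ) = ((n : ℝ) : ℂ) := by
    push_cast
    rw [← hn]
    unfold T5.rip
    rw [Nat.card_eq_fintype_card, finsum_eq_sum_of_fintype]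
    congr 1
    refine Finset.sum_congr rfl fun k _ => ?_
    by_cases h : Reg ℓ k
    · rw [finsum_eq_if, if_pos h, if_pos h, ← Complex.mul_conj]
    · rw [finsum_eq_if, if_neg h, if_neg h, Complex.ofReal_zero]
  have h2 : (Fintype.card G : ℝ)⁻¹ *
      ∑ k : G, (if Reg ℓ k then Complex.normSq (χ k) else 0) = (n : ℝ) := by
    exact_mod_cast h1
  have h3 := T5.H15.sum_nsq hχ
  have h4 : (∑ k : G, if Reg ℓ k then Complex.normSq (χ k) else 0) < Fintype.card G := by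
    rw [← h3]
    refine Finset.sum_lt_sum (fun k _ => ?_) ⟨g, Finset.mem_univ g, ?_⟩
    · split_ifs
      · exact le_rfl
      · exact Complex.normSq_nonneg _
    · rw [if_neg hg]
      exact Complex.normSq_pos.2 hχg
  have h5 : (0 : ℝ) < ∑ k : G, if Reg ℓ k then Complex.normSq (χ k) else 0 := by
    refine Finset.sum_pos' (fun k _ => ?_) ⟨1, Finset.mem_univ 1, ?_⟩
    · split_ifs
      · exact Complex.normSq_nonneg _
      · exact le_rfl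
    · rw [if_pos (show Reg ℓ (1 : G) by
        unfold Reg
        rw [orderOf_one]
        exact Nat.coprime_one_left ℓ)]
      exact Complex.normSq_pos.2 (irr_one_ne hχ)
  have h6 : (0 : ℝ) < n := by
    rw [← h2]
    exact mul_pos (inv_pos.2 hc) h5
  have h7 : (n : ℝ) < 1 := by
    rw [← h2, inv_mul_lt_iff₀ hc, mul_one]
    exact h4
  have h8 : (0 : ℤ) < n := by exact_mod_cast h6
  have h9 : n < 1 := by exact_mod_cast h7
  omega

end chars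

theorem exists_nonreg (homr : HOmrStmt) (hixe : HIxeStmt) (hlnk : HLnkStmt) (wbo : WboStmt)
    (ℓ : ℕ) [hℓ : Fact ℓ.Prime] (M : Ideal (integralClosure ℤ ℂ)) [M.IsMaximal]
    (hM : (ℓ : integralClosure ℤ ℂ) ∈ M) (V₀ G : Type) [CommGroup V₀] [Finite V₀] [Group G]
    [Finite G] (E₀ : Subgroup (MulAut V₀)) (hex : ∀ v : V₀, v ^ ℓ = 1)
    (hcd : Nat.card V₀ = ℓ ^ 2) (B : Bk (FF M) V₀ G) (hB : Sb ℓ M E₀ B) {χ : G → ℂ}
    (hχ : χ ∈ IrrE M B.e) : ∃ g, ¬ Reg ℓ g ∧ χ g ≠ 0 := by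
  classical
  have hnt : Nontrivial V₀ := by
    rw [← Finite.one_lt_card_iff_nontrivial, hcd]
    exact Nat.one_lt_pow two_ne_zero hℓ.out.one_lt
  obtain ⟨c, hc⟩ := exists_ne (1 : V₀)
  obtain ⟨-, h2, -, h3⟩ := hixe ℓ M hM V₀ E₀ G B hB
  have h4 : ¬ ℓ ∣ nE E₀ c := fun h => h2 (h.trans ⟨_, (h3 c).2.1.symm⟩)
  have h5 : SO.cv (fc B ⊥ c) χ ≠ 0 := by
    intro h
    have h6 := (homr ℓ M hM V₀ E₀ G B hB c χ hχ).2
    rw [h, rr_zero] at h6
    apply rr_nat_ne hM h4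
    rw [(rr_nat (M := M) (nE E₀ c)).2, ← h6]
  obtain ⟨hC, hLc, hcv⟩ := hlnk ℓ M hM V₀ E₀ G B hB c
  have h6 : gv M (Cu (B.i c)) (B.i c) (B.b (Subgroup.zpowers c)) χ ≠ 0 := by
    intro h
    apply h5
    rw [hcv χ hχ.1, h, mul_zero, zero_div]
  unfold gv gbv at h6
  obtain ⟨t, ht⟩ : ∃ t : Cu (B.i c),
      eh M (fun t : Cu (B.i c) => B.b (Subgroup.zpowers c) t) t * χ (B.i c * t) ≠ 0 := by
    by_contra hno
    apply h6
    apply finsum_eq_zero_of_forall_eq_zero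
    intro t
    by_contra hne
    exact hno ⟨t, hne⟩
  have ht1 : eh M (fun t : Cu (B.i c) => B.b (Subgroup.zpowers c) t) t ≠ 0 :=
    left_ne_zero_of_mul ht
  have ht2 : χ (B.i c * t) ≠ 0 := right_ne_zero_of_mul ht
  have hreg : Reg ℓ (t : G) := by
    have hf : Fintype (Cu (B.i c)) := Fintype.ofFinite _
    by_contra hcon
    apply ht1
    refine K9.H25.eh_sing wbo ℓ M hM _ hLc.blk.blk.1 t (fun h => hcon ?_)
    unfold Reg at h ⊢
    rwa [Subgroup.orderOf_coe]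
  refine ⟨B.i c * t, ?_, ht2⟩
  intro hR
  have ho : orderOf (B.i c) = ℓ := by
    refine orderOf_eq_prime ?_ (fun h => hc (hB.inj (by rw [h, map_one])))
    rw [← map_pow, hex, map_one]
  have hcm : Commute (B.i c) (t : G) := by
    have := Subgroup.mem_centralizer_singleton_iff.1 t.2
    exact this.symm
  have hcop : (orderOf (B.i c)).Coprime (orderOf (t : G)) := by
    rw [ho]
    exact hreg.symm
  unfold Reg at hR
  rw [hcm.orderOf_mul_eq_mul_orderOf_of_coprime hcop, ho] at hR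
  have h7 : ℓ.Coprime ℓ := Nat.Coprime.coprime_mul_right hR
  exact hℓ.out.one_lt.ne' ((Nat.coprime_self ℓ).1 h7)

theorem hte (hza : HzaStmt) (rxe : RxeStmt) (nzf : TB.NzfStmt) (pr5 : T5.Pr5Stmt)
    (deg : T5.DegStmt) (inq : T5.InqStmt) (homr : HOmrStmt) (hixe : HIxeStmt) (hlnk : HLnkStmt)
    (wbo : WboStmt) : HteStmt := by
  intro ℓ hℓ M _ hM V₀ G _ _ _ _ E₀ hex hcd B hB χ hχ
  have hl0 : (ℓ : ℂ) ≠ 0 := Nat.cast_ne_zero.2 hℓ.out.ne_zero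
  have hN0 : (Nat.card G : ℂ) ≠ 0 := Nat.cast_ne_zero.2 Nat.card_pos.ne'
  have hblk := hB.ld.blk
  have htp := hB.ld.tp
  have hV : Nat.card B.i.range = ℓ ^ 2 := by
    rw [← hcd]
    exact (Nat.card_congr (MonoidHom.ofInjective hB.inj).toEquiv).symm
  have hV' : (Nat.card B.i.range : ℂ) = (ℓ : ℂ) ^ 2 := by rw [hV]; push_cast; rfl
  have hone : ∀ ψ ∈ IrrE M B.e, ψ 1 ≠ 0 := fun ψ hψ => irr_one_ne hψ.1
  -- the numbers `a`
  have ha : ∀ ψ ∈ IrrE M B.e, (ℓ : ℂ) ^ 2 * ψ 1 / Nat.card G ∈ RM M := by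
    intro ψ hψ
    have := deg ℓ M hM G B.e hblk B.i.range htp ψ hψ
    rwa [hV'] at this
  have hint : ∀ ψ ∈ IrrE M B.e, ∀ ψ' ∈ IrrE M B.e, ∃ n : ℤ,
      (ℓ : ℂ) ^ 2 * T5.rip ℓ ψ ψ' = n := by
    intro ψ hψ ψ' hψ'
    obtain ⟨n, hn⟩ := inq ℓ M hM G B.e hblk B.i.range htp ψ hψ ψ' hψ'
    rw [hV'] at hn
    exact ⟨n, hn⟩
  have hsym : ∀ ψ ∈ IrrE M B.e, ∀ ψ' ∈ IrrE M B.e, T5.rip ℓ ψ' ψ = T5.rip ℓ ψ ψ' := by
    intro ψ hψ ψ' hψ'
    obtain ⟨n, hn⟩ := hint ψ hψ ψ' hψ'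
    have h1 : T5.rip ℓ ψ ψ' = (n : ℂ) / (ℓ : ℂ) ^ 2 := by
      rw [← hn]
      field_simp
    rw [← rip_star, h1, map_div₀, map_pow, Complex.conj_natCast, map_intCast]
  -- (1)
  obtain ⟨χ₀, hχ₀, h0⟩ := hza ℓ M hM G B.e hblk B.i.range htp
  rw [hV'] at h0
  obtain ⟨N', hN'⟩ := pr5 ℓ G
  obtain ⟨ψ, hψR, hnz⟩ := nzf ℓ M hM G N' hN' B.e hblk
  have hψ : ψ ∈ IrrE M B.e := hψR.1
  have haψ : (Nat.card G : ℂ) / ((ℓ : ℂ) ^ 2 * ψ 1) ∈ RM M := by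
    obtain ⟨h1, h2⟩ := hnz χ₀ hχ₀
    obtain ⟨h3, h4⟩ := inv_RM h1 h2
    have h5 := (rxe ℓ M hM G B.e hblk χ₀ hχ₀.1 ψ hψ).1
    have hr : T5.rip ℓ χ₀ ψ ≠ 0 := by
      intro h
      apply h4
      rw [h, mul_zero, zero_div]
    have h6 : (Nat.card G : ℂ) / ((ℓ : ℂ) ^ 2 * ψ 1) = ((Nat.card G : ℂ) / ((ℓ : ℂ) ^ 2 * χ₀ 1)) *
        (((Nat.card G : ℂ) * T5.rip ℓ ψ χ₀ / ψ 1) *
          ((Nat.card G : ℂ) * T5.rip ℓ χ₀ ψ / χ₀ 1)⁻¹) := by
      rw [hsym χ₀ hχ₀ ψ hψ]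
      have h7 := hone χ₀ hχ₀
      have h8 := hone ψ hψ
      field_simp
    rw [h6]
    exact (RM M).mul_mem h0 ((RM M).mul_mem h5 h3)
  -- the rational number `a`
  obtain ⟨d, hd0, hd⟩ := irr_one hχ.1
  obtain ⟨q, hq⟩ : ∃ q : ℚ, q = (ℓ : ℚ) ^ 2 * d / Nat.card G := ⟨_, rfl⟩
  have hqC : (q : ℂ) = (ℓ : ℂ) ^ 2 * χ 1 / Nat.card G := by
    rw [hq, hd]
    push_cast
    rfl
  have hqR : (q : ℂ) ∈ RM M := by
    rw [hqC]
    exact ha χ hχ
  have hinv : (q : ℂ)⁻¹ = (Nat.card G : ℂ) / ((ℓ : ℂ) ^ 2 * χ 1) := by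
    rw [hqC, inv_div]
  rcases unit_or hM hqR with ⟨h1, h2⟩ | h1
  · -- (3)
    rw [hinv] at h1
    refine ⟨h1, q.den, q.num.natAbs, SO.H45.rat_RM hM hqR,
      fun h => h2 (Int.natCast_dvd.2 h), ?_⟩
    have hqpos : 0 < q := by
      have hG : (0 : ℚ) < Nat.card G := by exact_mod_cast Nat.card_pos
      have hd' : (0 : ℚ) < d := by exact_mod_cast hd0
      have hl' : (0 : ℚ) < ℓ := by exact_mod_cast hℓ.out.pos
      rw [hq]
      positivity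
    have h3 : ((q.num.natAbs : ℕ) : ℤ) = q.num := by
      rw [Int.natCast_natAbs]
      exact abs_of_pos (Rat.num_pos.2 hqpos)
    have h4 : ((q.num : ℤ) : ℂ) = (q : ℂ) * ((q.den : ℕ) : ℂ) := by
      have h5 : (q.num : ℚ) = q * q.den := (Rat.mul_den_eq_num q).symm
      exact_mod_cast congrArg (fun x : ℚ => (x : ℂ)) h5
    have h5 : ((q.num.natAbs : ℕ) : ℂ) = ((q.num : ℤ) : ℂ) := by
      have h6 : (((q.num.natAbs : ℕ) : ℤ) : ℂ) = ((q.num : ℤ) : ℂ) :=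
        congrArg (fun z : ℤ => (z : ℂ)) h3
      rw [← h6, Int.cast_natCast]
    rw [h5, h4, hqC]
    field_simp
  · -- (2)
    exfalso
    have hχ0 := hone χ hχ
    have hψ0 := hone ψ hψ
    obtain ⟨h2, h3⟩ := rxe ℓ M hM G B.e hblk χ hχ.1 χ hχ
    have h4 := h3 ψ hψ
    have h5 := (rxe ℓ M hM G B.e hblk ψ hψ.1 χ hχ).1
    have h6 : (Nat.card G : ℂ) * T5.rip ℓ ψ χ / ψ 1 = ℓ * ((q : ℂ) / ℓ *
        (((Nat.card G : ℂ) / ((ℓ : ℂ) ^ 2 * ψ 1)) *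
          ((Nat.card G : ℂ) * T5.rip ℓ χ ψ / χ 1))) := by
      rw [hsym χ hχ ψ hψ, hqC]
      field_simp
    rw [h6, rr_mul (rr_nat ℓ).1 ((RM M).mul_mem h1 ((RM M).mul_mem haψ h5)), rr_l hM,
      zero_mul] at h4
    obtain ⟨n, hn⟩ := hint χ hχ χ hχ
    have h7 : (n : ℂ) = ℓ * ((q : ℂ) / ℓ * ((Nat.card G : ℂ) * T5.rip ℓ χ χ / χ 1)) := by
      rw [← hn, hqC]
      field_simp
    have h8 : rr M (n : ℂ) = 0 := by
      rw [h7, rr_mul (rr_nat ℓ).1 ((RM M).mul_mem h1 h2), rr_l hM, zero_mul]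
    obtain ⟨n', hn'⟩ := (dvd_of_rr (M := M) hℓ.out hM).1 h8
    have h9 : (n' : ℂ) = (q : ℂ) / ℓ * ((Nat.card G : ℂ) * T5.rip ℓ χ χ / χ 1) := by
      have h10 : (ℓ : ℂ) * (n' : ℂ) =
          ℓ * ((q : ℂ) / ℓ * ((Nat.card G : ℂ) * T5.rip ℓ χ χ / χ 1)) := by
        rw [← h7, hn']
        push_cast
        rfl
      exact mul_left_cancel₀ hl0 h10
    have h10 : rr M (n' : ℂ) = 0 := by
      rw [h9, rr_mul h1 h2, h4, mul_zero]
    obtain ⟨n'', hn''⟩ := (dvd_of_rr (M := M) hℓ.out hM).1 h10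
    obtain ⟨g, hg, hχg⟩ := exists_nonreg homr hixe hlnk wbo ℓ M hM V₀ G E₀ hex hcd B hB hχ
    refine rip_not_int hχ.1 hg hχg n'' ?_
    have h11 : (ℓ : ℂ) ^ 2 * T5.rip ℓ χ χ = (ℓ : ℂ) ^ 2 * n'' := by
      rw [hn, hn', hn'']
      push_cast
      ring
    exact mul_left_cancel₀ (pow_ne_zero 2 hl0) h11

end Pool.Agent.PP.SE.H91
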