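import Pool.Agent.ASE.Stmts9
import Pool.Agent.Helper13_ASE.BRE

/-!
# Squad ASE, row BLG: the blocks of the comparison group
-/

set_option autoImplicit false

open scoped BigOperators

noncomputable section

namespace Pool.Agent.PP.SE.H91

open Pool.Agent.Helper51_AWC Pool.Agent.Helper79_WRA Pool.Agent.PP Pool.Agent.PP.KF
open Pool.Agent.PP.K9 Pool.Agent.PP.K9.H97 Pool.Agent.PP.H75 Pool.Agent.PP.T3 Pool.Agent.PP.SO
open Pool.Agent.PP.SD

attribute [local instance] Ideal.Quotient.field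

namespace BLG

/-- the number of elements of `N` is `1` modulo `ℓ` if `1` is the only fixed point of `V` -/
theorem card_one {G : Type} [Group G] [Finite G] {ℓ : ℕ} [Fact ℓ.Prime] {V N : Subgroup G}
    (hV : IsPGroup ℓ V) (hN : ∀ v ∈ V, ∀ x ∈ N, v * x * v⁻¹ ∈ N)
    (hfix : ∀ x ∈ N, (∀ v ∈ V, v * x = x * v) → x = 1) : Nat.card N ≡ 1 [MOD ℓ] := by
  let act : MulAction V N :=
    { smul := fun v x => ⟨v * x * (v : G)⁻¹, hN v v.2 x x.2⟩
      one_smul := fun x => Subtype.ext (by change ((1 : V) : G) * x * ((1 : V) : G)⁻¹ = x; simp)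
      mul_smul := fun v w x => Subtype.ext (by
        change ((v * w : V) : G) * x * ((v * w : V) : G)⁻¹ = v * (w * x * (w : G)⁻¹) * (v : G)⁻¹
        push_cast
        group) }
  have h1 := hV.card_modEq_card_fixedPoints N
  have h2 : Nat.card (MulAction.fixedPoints V N) = 1 := by
    rw [Nat.card_eq_one_iff_unique]
    refine ⟨⟨?_⟩, ⟨⟨1, ?_⟩⟩⟩
    · have hone : ∀ a : MulAction.fixedPoints V N, ((a : N) : G) = 1 := by
        intro a
        refine hfix a a.1.2 fun v hv => ?_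
        have h3 := congrArg (fun y : N => (y : G)) (a.2 ⟨v, hv⟩)
        change v * ((a : N) : G) * v⁻¹ = ((a : N) : G) at h3
        rw [← mul_inv_eq_iff_eq_mul]
        exact h3
      intro a b
      exact Subtype.ext (Subtype.ext ((hone a).trans (hone b).symm))
    · intro v
      apply Subtype.ext
      change (v : G) * ((1 : N) : G) * (v : G)⁻¹ = ((1 : N) : G)
      simp
  rw [h2] at h1
  exact h1

variable {ℓ : ℕ} [Fact ℓ.Prime] {M : Ideal (integralClosure ℤ ℂ)} [M.IsMaximal]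

/-- inflation along a surjective homomorphism whose kernel has `1` modulo `ℓ` elements -/
theorem gen (inf : SO.InfStmt) (hM : (ℓ : integralClosure ℤ ℂ) ∈ M) {A B : Type} [Group A]
    [Finite A] [Group B] [Finite B] (ρ : A →* B) (hs : Function.Surjective ρ)
    (hk : Nat.card ρ.ker ≡ 1 [MOD ℓ]) {a : B → FF M} (ha : IsBlk a) :
    IsBlk (fun x : A => a (ρ x)) ∧
      IrrE M (fun x : A => a (ρ x)) = {χ | ∃ κ ∈ IrrE M a, χ = fun x => κ (ρ x)} := by
  have hF : GoodF ℓ (FF M) := H50.fld ℓ Fact.out M hM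
  have := hF.char
  have h1 : (Nat.card ρ.ker : FF M) = 1 := by
    rw [(CharP.natCast_eq_natCast (FF M) ℓ).2 hk, Nat.cast_one]
  have h2 : ¬ ℓ ∣ Nat.card ρ.ker := by
    intro h
    have h3 := (Nat.modEq_zero_iff_dvd.2 h).symm.trans hk
    have h4 : ℓ ∣ 1 := Nat.modEq_zero_iff_dvd.1 h3.symm
    exact (Fact.out : ℓ.Prime).one_lt.ne' (Nat.dvd_one.1 h4)
  obtain ⟨-, -, h3, h4⟩ := inf ℓ M hM A B ρ hs h2
  have h5 : infl ρ a = fun x => a (ρ x) := by
    funext x
    unfold infl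
    rw [h1, inv_one, one_mul]
  rw [← h5]
  exact ⟨h3 a ha, h4 a ha.1⟩

end BLG

open BLG in
/-- BLG -/
theorem blg (bre : BreStmt) (inf : SO.InfStmt) : BlgStmt := by
  intro ℓ _ M _ hM V₀ S G _ _ _ _ _ _ φ θ κ d π j hq hth hC
  have hfin : Finite (V₀ ⋊[φ] S) := Finite.of_equiv _ SemidirectProduct.equivProd.symm
  obtain ⟨-, hb1, hb2⟩ := bre ℓ M hM V₀ S φ θ κ d hq hth
  have hV : IsPGroup ℓ (iG j).range := by
    rintro ⟨x, v, rfl⟩
    refine ⟨1, ?_⟩
    apply Subtype.ext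
    show iG j v ^ ℓ ^ 1 = 1
    rw [pow_one, ← map_pow, hq.ex, map_one]
  have hfx : ∀ x : G, π x = 1 → (∀ v ∈ (iG j).range, v * x = x * v) → x = 1 := by
    intro x hx h
    exact hC.fix x hx fun v => h _ ⟨v, rfl⟩
  have hsur : Function.Surjective π := fun y => ⟨j y, hC.sec y⟩
  have hk : Nat.card π.ker ≡ 1 [MOD ℓ] := by
    refine card_one hV ?_ ?_
    · intro v _ x hx
      rw [MonoidHom.mem_ker] at hx ⊢
      rw [map_mul, map_mul, hx, mul_one, map_inv, mul_inv_cancel]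
    · intro x hx h
      exact hfx x (MonoidHom.mem_ker.1 hx) h
  obtain ⟨h1, h2⟩ := gen inf hM π hsur hk hb1
  refine ⟨h1, ?_, ?_⟩
  · rw [h2]
    have h3 : {χ : G → ℂ | ∃ κ ∈ IrrE M (eR φ θ), χ = fun x => κ (π x)} =
        (fun (κ : V₀ ⋊[φ] S → ℂ) (x : G) => κ (π x)) '' IrrE M (eR φ θ) := by
      ext χ
      constructor
      · rintro ⟨κ, hκ, rfl⟩
        exact ⟨κ, hκ, rfl⟩
      · rintro ⟨κ, hκ, rfl⟩
        exact ⟨κ, hκ, rfl⟩
    rw [h3]
    apply Set.ncard_image_of_injective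
    intro κ κ' h
    funext y
    have h4 := congrFun h (j y)
    simp only [hC.sec] at h4
    exact h4
  · intro C hiC S₁ hS₁ hCS
    have hmem : ∀ t : C, π t ∈ RS φ S₁ := fun t => hCS ▸ Subgroup.mem_map_of_mem π t.2
    obtain ⟨ρ, hρ⟩ : ∃ ρ : C →* RS φ S₁, ∀ t, (ρ t : V₀ ⋊[φ] S) = π t :=
      ⟨(π.comp C.subtype).codRestrict (RS φ S₁) hmem, fun _ => rfl⟩
    have hρs : Function.Surjective ρ := by
      intro y
      have h3 : (y : V₀ ⋊[φ] S) ∈ C.map π := by
        rw [hCS]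
        exact y.2
      obtain ⟨t, ht, hty⟩ := Subgroup.mem_map.1 h3
      exact ⟨⟨t, ht⟩, Subtype.ext ((hρ _).trans hty)⟩
    have hρk : Nat.card ρ.ker ≡ 1 [MOD ℓ] := by
      rw [← Subgroup.card_map_of_injective (Subgroup.subtype_injective C)]
      have h3 : ∀ x : G, x ∈ ρ.ker.map C.subtype ↔ x ∈ C ∧ π x = 1 := by
        intro x
        rw [Subgroup.mem_map]
        constructor
        · rintro ⟨t, ht, rfl⟩
          refine ⟨t.2, ?_⟩
          rw [MonoidHom.mem_ker] at ht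
          show π (t : G) = 1
          rw [← hρ, ht]
          rfl
        · rintro ⟨hx, hx1⟩
          refine ⟨⟨x, hx⟩, ?_, rfl⟩
          rw [MonoidHom.mem_ker]
          apply Subtype.ext
          rw [hρ]
          exact hx1
      refine card_one hV ?_ ?_
      · intro v hv x hx
        rw [h3] at hx ⊢
        refine ⟨C.mul_mem (C.mul_mem (hiC hv) hx.1) (C.inv_mem (hiC hv)), ?_⟩
        rw [map_mul, map_mul, hx.2, mul_one, map_inv, mul_inv_cancel]
      · intro x hx h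
        exact hfx x ((h3 x).1 hx).2 h
    obtain ⟨h3, h4⟩ := gen inf hM ρ hρs hρk (hb2 S₁ hS₁)
    have h5 : (fun t : C => eR φ θ (π t)) = fun t : C => eR φ θ (ρ t : V₀ ⋊[φ] S) := by
      funext t
      rw [hρ]
    rw [h5]
    refine ⟨h3, ?_, ?_⟩
    · intro ψ hψ
      rw [h4]
      refine ⟨_, hψ, ?_⟩
      funext t
      rw [hρ]
    · intro χ hχ
      rw [h4] at hχ
      obtain ⟨κ', hκ', rfl⟩ := hχ
      classical
      obtain ⟨ψ, hψ⟩ : ∃ ψ : V₀ ⋊[φ] S → ℂ, ∀ y, ψ y = if h : y ∈ RS φ S₁ then κ' ⟨y, h⟩ else 0 :=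
        ⟨_, fun _ => rfl⟩
      have h6 : (fun y : RS φ S₁ => ψ y) = κ' := by
        funext y
        show ψ (y : V₀ ⋊[φ] S) = κ' y
        rw [hψ, dif_pos y.2]
      refine ⟨ψ, ?_, ?_, ?_⟩
      · intro y hy
        rw [hψ, dif_neg hy]
      · rw [h6]
        exact hκ'
      · funext t
        rw [← hρ, ← congrFun h6 (ρ t)]

end Pool.Agent.PP.SE.H91
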