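import Pool.Agent.Helper13_ASE.BRE
import Pool.Agent.Helper44_WRA.Coset
import Pool.Agent.Helper75_PP.Res

/-!
# Squad ASE, row IND: induced characters
-/

set_option autoImplicit false

open scoped BigOperators

noncomputable section

namespace Pool.Agent.PP.SE.H91

open Pool.Agent.Helper51_AWC Pool.Agent.Helper79_WRA Pool.Agent.PP Pool.Agent.PP.KF
open Pool.Agent.PP.K9 Pool.Agent.PP.K9.H97 Pool.Agent.PP.H75 Pool.Agent.PP.T3 Pool.Agent.PP.SO
open Pool.Agent.PP.SD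

attribute [local instance] Ideal.Quotient.field

/-- the multiplicity of an irreducible character in the restriction is a natural number -/
theorem mult_nat {C H : Type} [Group C] [Fintype C] [Group H] (j : C →* H) {χ : H → ℂ}
    (hχ : χ ∈ Irr H) {θ : C → ℂ} (hθ : θ ∈ Irr C) :
    ∃ m : ℕ, ∑ c : C, θ c * χ (j c)⁻¹ = m * Fintype.card C := by
  obtain ⟨n, ρ, hρ, rfl⟩ := hχ
  obtain ⟨n', σ, hσ, rfl⟩ := hθ
  have hc : (Nat.card C : ℂ) ≠ 0 := by exact_mod_cast Nat.card_pos.ne'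
  have := invertibleOfNonzero hc
  obtain ⟨τ, hτ⟩ : ∃ τ : Representation ℂ C (Fin n → ℂ), τ = ρ.comp j := ⟨_, rfl⟩
  have h := Representation.card_inv_mul_sum_char_mul_char_eq_finrank σ τ
  refine ⟨Module.finrank ℂ (Representation.IntertwiningMap σ τ), ?_⟩
  rw [← h, ← Nat.card_eq_fintype_card, mul_comm, ← mul_assoc, mul_inv_cancel₀ hc, one_mul,
    ← Equiv.sum_comp (Equiv.inv C)]
  refine Finset.sum_congr rfl fun c _ => ?_
  rw [hτ]
  show σ.character c⁻¹ * ρ.character (j c⁻¹)⁻¹ = ρ.character (j c) * σ.character c⁻¹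
  rw [map_inv, inv_inv, mul_comm]

section sd

variable {V₀ S : Type} [CommGroup V₀] [Group S] (φ : S →* MulAut V₀)

/-- coordinates -/
def eqv (S₁ : Subgroup S) : V₀ × S₁ ≃ RS φ S₁ where
  toFun p := ⟨⟨p.1, (p.2 : S)⟩, p.2.2⟩
  invFun y := (y.1.left, ⟨y.1.right, y.2⟩)
  left_inv _ := rfl
  right_inv _ := rfl

theorem card_RS (S₁ : Subgroup S) : Nat.card (RS φ S₁) = Nat.card V₀ * Nat.card S₁ := by
  rw [← Nat.card_congr (eqv φ S₁), Nat.card_prod]

theorem card_S {S₁ : Subgroup S} (h : φ.ker ≤ S₁) :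
    Nat.card S₁ = Nat.card φ.ker * Nat.card (S₁.map φ) := by
  have h1 := Subgroup.card_mul_index (φ.comp S₁.subtype).ker
  rw [Subgroup.index_ker] at h1
  have h2 : (φ.comp S₁.subtype).range = S₁.map φ := by
    rw [MonoidHom.range_comp, Subgroup.range_subtype]
  have h3 : (φ.comp S₁.subtype).ker = φ.ker.subgroupOf S₁ := by
    ext x
    rfl
  rw [h2, h3, Nat.card_congr (Subgroup.subgroupOfEquivOfLe h).toEquiv] at h1
  exact h1.symm

theorem left_mul {x y : V₀ ⋊[φ] S} (hx : φ x.right = 1) : (x * y).left = x.left * y.left := by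
  rw [SemidirectProduct.mul_left, hx, MulAut.one_apply]

theorem left_inv {x : V₀ ⋊[φ] S} (hx : φ x.right = 1) : (x⁻¹).left = (x.left)⁻¹ := by
  rw [SemidirectProduct.inv_left, map_inv φ, hx, inv_one, MulAut.one_apply]

theorem ker_le {S₁ : Subgroup S} (h : φ.ker ≤ S₁) : RS φ φ.ker ≤ RS φ S₁ := fun _ hy => h hy

variable {φ}

theorem lin_ne {lam : V₀ → ℂ} (hl : lam ∈ lin V₀) (v : V₀) : lam v * lam v⁻¹ = 1 := by
  rw [← hl.2, mul_inv_cancel, hl.1]

theorem lin_inj {lam : V₀ → ℂ} (hl : lam ∈ lin V₀) {mu : V₀ → ℂ} (hm : mu ∈ lin V₀)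
    [Fintype V₀] : ((∀ v, mu v = lam v) → ∑ v, lam v * mu v⁻¹ = Fintype.card V₀) ∧
    ((¬ ∀ v, mu v = lam v) → ∑ v, lam v * mu v⁻¹ = 0) := by
  constructor
  · intro h
    rw [Finset.sum_congr rfl (fun v _ => by rw [h, lin_ne hl]), Finset.sum_const,
      Finset.card_univ, nsmul_eq_mul, mul_one]
  · intro h
    obtain ⟨v₀, hv₀⟩ := not_forall.1 h
    have e1 : ∑ v, lam v * mu v⁻¹ = lam v₀ * mu v₀⁻¹ * ∑ v, lam v * mu v⁻¹ := by
      conv_lhs => rw [← Equiv.sum_comp (Equiv.mulLeft v₀)]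
      rw [Finset.mul_sum]
      refine Finset.sum_congr rfl fun v _ => ?_
      show lam (v₀ * v) * mu (v₀ * v)⁻¹ = _
      rw [mul_inv, hl.2, hm.2]
      ring
    have e2 : (1 - lam v₀ * mu v₀⁻¹) * ∑ v, lam v * mu v⁻¹ = 0 := by
      rw [sub_mul, one_mul, ← e1, sub_self]
    rcases mul_eq_zero.1 e2 with h1 | h1
    · exfalso
      apply hv₀
      have h2 : lam v₀ * mu v₀⁻¹ = 1 := (sub_eq_zero.1 h1).symm
      have h3 := lin_ne hm v₀
      calc mu v₀ = mu v₀ * (lam v₀ * mu v₀⁻¹) := by rw [h2, mul_one]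
        _ = lam v₀ * (mu v₀ * mu v₀⁻¹) := by ring
        _ = lam v₀ := by rw [h3, mul_one]
    · exact h1

variable {κ : S → ℂ}

/-- the character `lam × κ` of `V₀ × ker φ` -/
theorem psi_irr [Finite V₀] [Finite S] (hk : (fun t : φ.ker => κ t) ∈ Irr φ.ker) {lam : V₀ → ℂ}
    (hl : lam ∈ lin V₀) :
    (fun y : RS φ φ.ker => lam (y : V₀ ⋊[φ] S).left * κ (y : V₀ ⋊[φ] S).right) ∈
      Irr (RS φ φ.ker) := by
  classical
  have := Fintype.ofFinite V₀
  have := Fintype.ofFinite φ.ker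
  have : Finite (RS φ φ.ker) := Finite.of_equiv _ (eqv φ φ.ker)
  have := Fintype.ofFinite (RS φ φ.ker)
  obtain ⟨n, ρ, hρ, hρκ⟩ := hk
  obtain ⟨ρ', hρ'⟩ : ∃ ρ' : Representation ℂ (RS φ φ.ker) (Fin n → ℂ),
      ∀ y, ρ' y = lam (y : V₀ ⋊[φ] S).left • ρ ⟨(y : V₀ ⋊[φ] S).right, y.2⟩ := by
    refine ⟨{ toFun := fun y => lam (y : V₀ ⋊[φ] S).left • ρ ⟨(y : V₀ ⋊[φ] S).right, y.2⟩
              map_one' := ?_
              map_mul' := ?_ }, fun y => rfl⟩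
    · have h1 : ((1 : RS φ φ.ker) : V₀ ⋊[φ] S).left = 1 := rfl
      have h2 : (⟨((1 : RS φ φ.ker) : V₀ ⋊[φ] S).right, (1 : RS φ φ.ker).2⟩ : φ.ker) = 1 := rfl
      rw [h1, h2, hl.1, one_smul, map_one]
    · intro x y
      have h1 : ((x * y : RS φ φ.ker) : V₀ ⋊[φ] S).left =
          (x : V₀ ⋊[φ] S).left * (y : V₀ ⋊[φ] S).left := left_mul φ (MonoidHom.mem_ker.1 x.2)
      have h2 : (⟨((x * y : RS φ φ.ker) : V₀ ⋊[φ] S).right, (x * y : RS φ φ.ker).2⟩ : φ.ker) =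
          ⟨(x : V₀ ⋊[φ] S).right, x.2⟩ * ⟨(y : V₀ ⋊[φ] S).right, y.2⟩ := rfl
      rw [h1, h2, hl.2, map_mul, smul_mul_smul_comm]
  have hch : ∀ y, ρ'.character y = lam (y : V₀ ⋊[φ] S).left * κ (y : V₀ ⋊[φ] S).right := by
    intro y
    show LinearMap.trace ℂ _ (ρ' y) = _
    rw [hρ', map_smul, smul_eq_mul]
    congr 1
    exact congrFun hρκ ⟨(y : V₀ ⋊[φ] S).right, y.2⟩
  rw [← show ρ'.character = _ from funext hch]
  apply mem_Irr_of_norm
  have h1 : ∀ y : RS φ φ.ker, ρ'.character y * ρ'.character y⁻¹ =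
      κ (y : V₀ ⋊[φ] S).right * κ ((y : V₀ ⋊[φ] S).right)⁻¹ := by
    intro y
    rw [hch, hch]
    have h2 : ((y⁻¹ : RS φ φ.ker) : V₀ ⋊[φ] S).left = ((y : V₀ ⋊[φ] S).left)⁻¹ :=
      left_inv φ (MonoidHom.mem_ker.1 y.2)
    have h3 : ((y⁻¹ : RS φ φ.ker) : V₀ ⋊[φ] S).right = ((y : V₀ ⋊[φ] S).right)⁻¹ := rfl
    rw [h2, h3]
    have h4 := lin_ne hl (y : V₀ ⋊[φ] S).left
    calc _ = (lam (y : V₀ ⋊[φ] S).left * lam ((y : V₀ ⋊[φ] S).left)⁻¹) *
        (κ (y : V₀ ⋊[φ] S).right * κ ((y : V₀ ⋊[φ] S).right)⁻¹) := by ring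
      _ = _ := by rw [h4, one_mul]
  rw [Finset.sum_congr rfl (fun y _ => h1 y), ← Equiv.sum_comp (eqv φ φ.ker),
    Fintype.sum_prod_type]
  have h5 := irr_orth_self (mem_Irr_of_irreducible ρ)
  rw [hρκ] at h5
  have h6 : ∀ v : V₀, ∑ s : φ.ker, κ ((eqv φ φ.ker (v, s) : RS φ φ.ker) : V₀ ⋊[φ] S).right *
      κ (((eqv φ φ.ker (v, s) : RS φ φ.ker) : V₀ ⋊[φ] S).right)⁻¹ = Fintype.card φ.ker :=
    fun v => h5
  rw [Finset.sum_congr rfl (fun v _ => h6 v), Finset.sum_const, Finset.card_univ, nsmul_eq_mul]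
  have h7 := card_RS φ φ.ker
  rw [Nat.card_eq_fintype_card, Nat.card_eq_fintype_card, Nat.card_eq_fintype_card] at h7
  rw [h7]
  push_cast
  rfl

/-- reciprocity -/
theorem frob [Finite V₀] [Finite S] (hz : ∀ x, x ∉ φ.ker → κ x = 0)
    (hc : ∀ x y, κ (y * x * y⁻¹) = κ x) {S₁ : Subgroup S} (hS : φ.ker ≤ S₁) (lam : V₀ → ℂ)
    [Fintype (RS φ S₁)] [Fintype (RS φ φ.ker)] (χ : RS φ S₁ → ℂ)
    (hχ : ∀ g h, χ (h * g * h⁻¹) = χ g) :
    ∑ g : RS φ S₁, xiL φ κ S₁ lam g * χ g⁻¹ = Nat.card (S₁.map φ) *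
      ∑ n : RS φ φ.ker, lam (n : V₀ ⋊[φ] S).left * κ (n : V₀ ⋊[φ] S).right *
        χ (Subgroup.inclusion (ker_le φ hS) n)⁻¹ := by
  classical
  have := Fintype.ofFinite (S₁.map φ)
  have h1 : ∀ g : RS φ S₁, xiL φ κ S₁ lam g * χ g⁻¹ = ∑ τ : S₁.map φ,
      lam ((τ : MulAut V₀) (g : V₀ ⋊[φ] S).left) * κ (g : V₀ ⋊[φ] S).right * χ g⁻¹ := by
    intro g
    unfold xiL
    rw [finsum_eq_sum_of_fintype, Finset.mul_sum, Finset.sum_mul]
    exact Finset.sum_congr rfl fun τ _ => by ring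
  rw [Finset.sum_congr rfl (fun g _ => h1 g), Finset.sum_comm]
  have h2 : ∀ τ : S₁.map φ, ∑ g : RS φ S₁, lam ((τ : MulAut V₀) (g : V₀ ⋊[φ] S).left) *
      κ (g : V₀ ⋊[φ] S).right * χ g⁻¹ = ∑ n : RS φ φ.ker, lam (n : V₀ ⋊[φ] S).left *
        κ (n : V₀ ⋊[φ] S).right * χ (Subgroup.inclusion (ker_le φ hS) n)⁻¹ := by
    intro τ
    obtain ⟨t, ht, hτ⟩ := τ.2
    have h3 : ∑ g : RS φ S₁, lam ((τ : MulAut V₀) (g : V₀ ⋊[φ] S).left) *
        κ (g : V₀ ⋊[φ] S).right * χ g⁻¹ = ∑ g : RS φ S₁, lam (g : V₀ ⋊[φ] S).left *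
        κ (g : V₀ ⋊[φ] S).right * χ g⁻¹ := by
      obtain ⟨c, hcc⟩ : ∃ c : RS φ S₁, (c : V₀ ⋊[φ] S) = SemidirectProduct.inr t :=
        ⟨⟨SemidirectProduct.inr t, ht⟩, rfl⟩
      have hcr : (c : V₀ ⋊[φ] S).right = t := by rw [hcc, SemidirectProduct.right_inr]
      rw [← Equiv.sum_comp (MulAut.conj c).toEquiv (fun g : RS φ S₁ =>
        lam (g : V₀ ⋊[φ] S).left * κ (g : V₀ ⋊[φ] S).right * χ g⁻¹)]
      refine Finset.sum_congr rfl fun g _ => ?_
      show _ = lam ((c : V₀ ⋊[φ] S) * g * (c : V₀ ⋊[φ] S)⁻¹).left *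
        κ ((c : V₀ ⋊[φ] S) * g * (c : V₀ ⋊[φ] S)⁻¹).right * χ (c * g * c⁻¹)⁻¹
      rw [H13.sd_conj_right, hc]
      have h4 : χ (c * g * c⁻¹)⁻¹ = χ g⁻¹ := by
        have e : (c * g * c⁻¹)⁻¹ = c * g⁻¹ * c⁻¹ := by group
        rw [e, hχ]
      rw [h4]
      by_cases hk : φ (g : V₀ ⋊[φ] S).right = 1
      · rw [H13.sd_conj_left φ _ _ hk, hcr, hτ]
      · rw [hz _ (fun h => hk (MonoidHom.mem_ker.1 h)), mul_zero, mul_zero]
    rw [h3]
    symm
    refine Fintype.sum_of_injective (Subgroup.inclusion (ker_le φ hS))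
      (Subgroup.inclusion_injective (ker_le φ hS)) _ _ ?_ ?_
    · intro g hg
      have : (g : V₀ ⋊[φ] S).right ∉ φ.ker := by
        intro h
        apply hg
        exact ⟨⟨g, h⟩, rfl⟩
      rw [hz _ this, mul_zero, zero_mul]
    · intro n
      rfl
  rw [Finset.sum_congr rfl (fun τ _ => h2 τ), Finset.sum_const, Finset.card_univ, nsmul_eq_mul,
    Nat.card_eq_fintype_card]

/-- `xiL` is a class function -/
theorem xi_cl [Finite V₀] [Finite S] (hz : ∀ x, x ∉ φ.ker → κ x = 0)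
    (hc : ∀ x y, κ (y * x * y⁻¹) = κ x) {S₁ : Subgroup S} (lam : V₀ → ℂ) (g h : RS φ S₁) :
    xiL φ κ S₁ lam ((h * g * h⁻¹ : RS φ S₁) : V₀ ⋊[φ] S) = xiL φ κ S₁ lam (g : V₀ ⋊[φ] S) := by
  show xiL φ κ S₁ lam ((h : V₀ ⋊[φ] S) * g * (h : V₀ ⋊[φ] S)⁻¹) = _
  unfold xiL
  rw [H13.sd_conj_right, hc]
  by_cases hk : φ (g : V₀ ⋊[φ] S).right = 1
  · rw [H13.sd_conj_left φ _ _ hk]
    congr 1
    obtain ⟨σ, hσ⟩ : ∃ σ : S₁.map φ, (σ : MulAut V₀) = φ (h : V₀ ⋊[φ] S).right :=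
      ⟨⟨_, _, h.2, rfl⟩, rfl⟩
    symm
    rw [← finsum_comp_equiv (Equiv.mulRight σ)]
    refine finsum_congr fun τ => ?_
    show lam (((τ * σ : S₁.map φ) : MulAut V₀) (g : V₀ ⋊[φ] S).left) =
      lam ((τ : MulAut V₀) (φ (h : V₀ ⋊[φ] S).right (g : V₀ ⋊[φ] S).left))
    rw [← hσ]
    rfl
  · rw [hz _ (fun h => hk (MonoidHom.mem_ker.1 h)), zero_mul, zero_mul]

end sd

theorem ind : IndStmt := by
  classical
  intro ℓ hℓ M _ hM V₀ S _ _ _ _ φ θ κ d hF hT S₁ hS lam hl hst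
  have := Fintype.ofFinite V₀
  have := Fintype.ofFinite φ.ker
  have := Fintype.ofFinite (S₁.map φ)
  have hfR : Finite (RS φ S₁) := Finite.of_equiv _ (eqv φ S₁)
  have := Fintype.ofFinite (RS φ S₁)
  have hfN : Finite (RS φ φ.ker) := Finite.of_equiv _ (eqv φ φ.ker)
  have := Fintype.ofFinite (RS φ φ.ker)
  have hkE : (fun t : φ.ker => κ t) ∈ IrrE M (fun t : φ.ker => θ t) := by
    rw [hT.ki]
    exact Set.mem_singleton _
  have hκi := hkE.1
  have hz := hT.kz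
  have hc := hT.kc
  have hxc := xi_cl (φ := φ) hz hc (S₁ := S₁) lam
  have hcard : (Fintype.card (RS φ S₁) : ℂ) =
      Nat.card (S₁.map φ) * Fintype.card (RS φ φ.ker) := by
    have h1 := card_RS φ S₁
    have h2 := card_RS φ φ.ker
    rw [card_S φ hS] at h1
    rw [← Nat.card_eq_fintype_card, ← Nat.card_eq_fintype_card, h1, h2]
    push_cast
    ring
  -- irreducible
  have hirr : (fun y : RS φ S₁ => xiL φ κ S₁ lam y) ∈ Irr (RS φ S₁) := by
    apply H44.mem_Irr_of_mult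
    · exact hxc
    · intro χ hχ
      rw [frob hz hc hS lam χ (fun g h => irr_conj hχ g h)]
      obtain ⟨m, hm⟩ := mult_nat (Subgroup.inclusion (ker_le φ hS)) hχ (psi_irr hκi hl)
      refine ⟨m, ?_⟩
      rw [hm, hcard]
      ring
    · rw [frob hz hc hS lam (fun y : RS φ S₁ => xiL φ κ S₁ lam y) hxc, hcard]
      congr 1
      rw [← Equiv.sum_comp (eqv φ φ.ker), Fintype.sum_prod_type, Finset.sum_comm]
      have h1 : ∀ (s : φ.ker) (v : V₀),
          lam ((eqv φ φ.ker (v, s) : RS φ φ.ker) : V₀ ⋊[φ] S).left *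
            κ ((eqv φ φ.ker (v, s) : RS φ φ.ker) : V₀ ⋊[φ] S).right *
            xiL φ κ S₁ lam (((Subgroup.inclusion (ker_le φ hS) (eqv φ φ.ker (v, s)))⁻¹ :
              RS φ S₁) : V₀ ⋊[φ] S) =
          κ s * κ (s : S)⁻¹ * ∑ τ : S₁.map φ, lam v * lam ((τ : MulAut V₀) v⁻¹) := by
        intro s v
        have e1 : (((Subgroup.inclusion (ker_le φ hS) (eqv φ φ.ker (v, s)))⁻¹ :
              RS φ S₁) : V₀ ⋊[φ] S).left = v⁻¹ :=
          left_inv φ (x := (⟨v, (s : S)⟩ : V₀ ⋊[φ] S)) (MonoidHom.mem_ker.1 s.2)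
        have e2 : (((Subgroup.inclusion (ker_le φ hS) (eqv φ φ.ker (v, s)))⁻¹ :
              RS φ S₁) : V₀ ⋊[φ] S).right = (s : S)⁻¹ := rfl
        unfold xiL
        rw [e1, e2, finsum_eq_sum_of_fintype, Finset.mul_sum, Finset.mul_sum, Finset.mul_sum]
        refine Finset.sum_congr rfl fun τ _ => ?_
        show lam v * κ s * (κ (s : S)⁻¹ * lam ((τ : MulAut V₀) v⁻¹)) = _
        ring
      have h2 : ∀ s : φ.ker, ∑ v : V₀, κ s * κ (s : S)⁻¹ *
          ∑ τ : S₁.map φ, lam v * lam ((τ : MulAut V₀) v⁻¹) =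
            κ s * κ (s : S)⁻¹ * Fintype.card V₀ := by
        intro s
        rw [← Finset.mul_sum, Finset.sum_comm]
        congr 1
        have h3 : ∀ τ : S₁.map φ, ∑ v, lam v * lam ((τ : MulAut V₀) v⁻¹) =
            if τ = 1 then (Fintype.card V₀ : ℂ) else 0 := by
          intro τ
          have hm : (fun v => lam ((τ : MulAut V₀) v)) ∈ lin V₀ := by
            refine ⟨?_, fun v w => ?_⟩
            · show lam ((τ : MulAut V₀) 1) = 1
              rw [map_one, hl.1]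
            · show lam ((τ : MulAut V₀) (v * w)) = _
              rw [map_mul, hl.2]
          obtain ⟨l1, l2⟩ := lin_inj hl hm
          split_ifs with h
          · exact l1 (fun v => by rw [h]; rfl)
          · refine l2 (fun h' => h ?_)
            obtain ⟨t, ht, hτ⟩ := τ.2
            have h4 := hst t ht (fun v => by rw [hτ]; exact h' v)
            apply Subtype.ext
            rw [← hτ]
            exact h4
        rw [Finset.sum_congr rfl (fun τ _ => h3 τ), Finset.sum_ite_eq', if_pos (Finset.mem_univ _)]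
      rw [Finset.sum_congr rfl (fun s _ => (Finset.sum_congr rfl (fun v _ => h1 s v)).trans (h2 s)),
        ← Finset.sum_mul]
      have h5 := irr_orth_self hκi
      have h6 : ∑ s : φ.ker, κ s * κ (s : S)⁻¹ = Fintype.card φ.ker := h5
      have h7 := card_RS φ φ.ker
      rw [Nat.card_eq_fintype_card, Nat.card_eq_fintype_card, Nat.card_eq_fintype_card] at h7
      rw [h6, h7]
      push_cast
      ring
  refine ⟨hirr, ?_⟩
  -- the block
  have hcl : IsCl (eR φ θ) := H13.eR_cl φ hT.bx.supp hT.cl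
  have hred0 : red M (0 : ℂ) = 0 := by
    have := red_of (M := M) (z := (0 : ℂ)) isIntegral_zero
    rw [this]
    exact map_zero _
  obtain ⟨L, hL⟩ : ∃ L : FF M → ℂ, ∀ x, L x = if x = 0 then 0 else lf M x := ⟨_, fun _ => rfl⟩
  have hLi : ∀ x, IsIntegral ℤ (L x) := by
    intro x
    rw [hL]
    split_ifs
    · exact isIntegral_zero
    · exact lf_integral x
  have hLr : ∀ x, red M (L x) = x := by
    intro x
    rw [hL]
    split_ifs with h
    · rw [hred0, h]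
    · exact red_lf x
  have r1 := res_eq_red (M := M) hirr (A := fun y : RS φ S₁ => L (eR φ θ y))
    (fun g h => congrArg L (hcl g h)) (fun g => hLi _) (fun y : RS φ S₁ => eR φ θ y)
    (fun g => hLr _)
  have r2 := res_eq_red (M := M) hκi (A := fun s : φ.ker => L (θ s))
    (fun g h => congrArg L (hT.cl g h)) (fun g => hLi _) (fun s : φ.ker => θ s)
    (fun g => hLr _)
  rw [r1.2]
  have r3 := hkE.2
  rw [r2.2] at r3
  rw [← r3]
  congr 1
  unfold wC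
  have hm0 : (Nat.card (S₁.map φ) : ℂ) ≠ 0 := Nat.cast_ne_zero.2 Nat.card_pos.ne'
  have hκ1 : κ 1 ≠ 0 := irr_one_ne (χ := fun t : φ.ker => κ t) hκi
  have hval : ∀ s : S, xiL φ κ S₁ lam (⟨1, s⟩ : V₀ ⋊[φ] S) = κ s * Nat.card (S₁.map φ) := by
    intro s
    unfold xiL
    rw [finsum_eq_sum_of_fintype]
    congr 1
    rw [Finset.sum_congr rfl (fun τ _ => by
      show lam ((τ : MulAut V₀) 1) = 1
      rw [map_one, hl.1]), Finset.sum_const, Finset.card_univ, nsmul_eq_mul, mul_one,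
      Nat.card_eq_fintype_card]
  have hone : xiL φ κ S₁ lam ((1 : RS φ S₁) : V₀ ⋊[φ] S) = κ 1 * Nat.card (S₁.map φ) := hval 1
  have hs : ∑ t : RS φ S₁, L (eR φ θ t) * xiL φ κ S₁ lam t =
      (∑ t : φ.ker, L (θ t) * κ t) * Nat.card (S₁.map φ) := by
    rw [Finset.sum_mul]
    symm
    refine Fintype.sum_of_injective (fun s : φ.ker => (⟨⟨1, (s : S)⟩, hS s.2⟩ : RS φ S₁))
      (fun s s' h => Subtype.ext (congrArg (fun y : RS φ S₁ => (y : V₀ ⋊[φ] S).right) h)) _ _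
      ?_ ?_
    · intro y hy
      have h1 : eR φ θ (y : V₀ ⋊[φ] S) = 0 := by
        unfold eR
        split_ifs with h
        · apply hT.bx.supp
          intro h'
          apply hy
          refine ⟨⟨(y : V₀ ⋊[φ] S).right, h'⟩, ?_⟩
          apply Subtype.ext
          exact SemidirectProduct.ext h.symm rfl
        · rfl
      rw [h1, hL, if_pos rfl, zero_mul]
    · intro s
      show L (θ s) * κ s * _ = L (eR φ θ (⟨1, (s : S)⟩ : V₀ ⋊[φ] S)) *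
        xiL φ κ S₁ lam (⟨1, (s : S)⟩ : V₀ ⋊[φ] S)
      rw [hval]
      have h1 : eR φ θ (⟨1, (s : S)⟩ : V₀ ⋊[φ] S) = θ s := by
        unfold eR
        rw [if_pos rfl]
      rw [h1]
      ring
  show (∑ t : RS φ S₁, L (eR φ θ t) * xiL φ κ S₁ lam t) /
    xiL φ κ S₁ lam ((1 : RS φ S₁) : V₀ ⋊[φ] S) =
    (∑ t : φ.ker, L (θ t) * κ t) / κ ((1 : φ.ker) : S)
  rw [hone, hs]
  show _ = (∑ t : φ.ker, L (θ t) * κ t) / κ 1
  field_simp

end Pool.Agent.PP.SE.H91
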