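import Pool.Agent.ASE.Stmts8

/-!
# Squad ASE, row LME: the numbers of modular characters of the local blocks
-/

open scoped BigOperators

noncomputable section

namespace Pool.Agent.PP.SE.H91

open Pool.Agent.Helper51_AWC Pool.Agent.Helper79_WRA Pool.Agent.PP Pool.Agent.PP.KF
open Pool.Agent.PP.K9 Pool.Agent.PP.K9.H97 Pool.Agent.PP.H75 Pool.Agent.PP.T3 Pool.Agent.PP.SO
open Pool.Agent.PP.SD

attribute [local instance] Ideal.Quotient.field

theorem ln_eq {F G : Type} [Field F] [Group G] {X Y : Subgroup G} (h : X = Y) (g : G → F) :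
    ln (fun t : X => g t) = ln (fun t : Y => g t) := by
  subst h
  rfl

theorem st_zpowers {V₀ : Type} [CommGroup V₀] (E₀ : Subgroup (MulAut V₀)) (v : V₀) :
    St E₀ (Subgroup.zpowers v) = Es E₀ v := by
  ext σ
  constructor
  · rintro ⟨h1, h2⟩
    exact ⟨h1, h2 v (Subgroup.mem_zpowers v)⟩
  · rintro ⟨h1, h2⟩
    refine ⟨h1, ?_⟩
    intro w hw
    obtain ⟨k, rfl⟩ := Subgroup.mem_zpowers_iff.1 hw
    have h3 : σ v = v := h2
    rw [map_zpow, h3]

theorem lme (lmb : LmbStmt) (lmc : LmcStmt) : LmeStmt := by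
  intro ℓ _ M _ hM h2 V₀ G _ _ _ _ E₀ hF B hB
  obtain ⟨l1, -⟩ := lmb ℓ M hM h2 V₀ G E₀ hF B hB
  refine ⟨?_, ?_, ?_⟩
  · intro v hv
    have h := l1 (Subgroup.zpowers v) (fun h => hv (Subgroup.zpowers_eq_bot.1 h))
    rw [st_zpowers] at h
    exact h
  · unfold Lam lT
    apply ln_eq
    ext t
    constructor
    · intro h
      exact h.1
    · intro h
      exact ⟨h, hB.act t h⟩
  · intro E₁ hE₁ hc
    obtain ⟨ρ, hρ⟩ := hc.exists_generator
    have h3 : E₁ = Subgroup.zpowers (ρ : MulAut V₀) := by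
      ext x
      constructor
      · intro hx
        obtain ⟨k, hk⟩ := Subgroup.mem_zpowers_iff.1 (hρ ⟨x, hx⟩)
        exact Subgroup.mem_zpowers_iff.2 ⟨k, congrArg Subtype.val hk⟩
      · intro hx
        obtain ⟨k, hk⟩ := Subgroup.mem_zpowers_iff.1 hx
        rw [← hk]
        exact E₁.zpow_mem ρ.2 k
    rw [h3]
    exact lmc ℓ M hM h2 V₀ G E₀ hF B hB ρ (hE₁ ρ.2)

end Pool.Agent.PP.SE.H91
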